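import Mathlib

namespace Pool.Agent.Results.MP_f1a2b2_co.NoShuffle

/-- `z` is read along `I` and along the complement of `I`, both infinite. -/
def Split {A : Type} (z : ℕ → A) (I : Set ℕ) : Prop :=
  I.Infinite ∧ Iᶜ.Infinite ∧ (∀ k, z (Nat.nth (· ∈ I) k) = z k) ∧ ∀ k, z (Nat.nth (· ∈ Iᶜ) k) = z k

/-- Self-shuffling words. -/
def SelfShuffling {A : Type} (z : ℕ → A) : Prop := ∃ I, Split z I

/-- The last nonzero ternary digit. -/
def y (N : ℕ) : ZMod 3 := (N / 3 ^ padicValNat 3 N : ℕ)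

/-- The word: blocks of four consecutive last nonzero digits. -/
def x (n : ℕ) (m : Fin 4) : ZMod 3 := y (4 * n + m)

theorem y_eq (a : ℕ) {u : ℕ} (h : ¬ 3 ∣ u) : y (3 ^ a * u) = u := by
  have : Fact (Nat.Prime 3) := ⟨by norm_num⟩
  rw [y, padicValNat.mul (by positivity) (by rintro rfl; simp at h), padicValNat.prime_pow,
    padicValNat.eq_zero_of_not_dvd h, add_zero, Nat.mul_div_cancel_left _ (by positivity)]

theorem key (a u M : ℕ) (h : ¬ 3 ∣ u) : ∃ k < 3 ^ a, x (M + k + 3 ^ a * u) ≠ x (M + k) := by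
  have p : 0 < 3 ^ a := by positivity
  obtain ⟨t, h1, h2, h3⟩ : ∃ t, 4 * M / 3 ^ a + 1 ≤ t ∧ t ≤ 4 * M / 3 ^ a + 3 ∧ t % 3 = u % 3 :=
    ⟨4 * M / 3 ^ a + 1 + (u + 2 * (4 * M / 3 ^ a + 1)) % 3, by omega, by omega, by omega⟩
  have d := Nat.div_add_mod (4 * M) (3 ^ a)
  have m := Nat.mod_lt (4 * M) p
  have b1 := Nat.mul_le_mul_left (3 ^ a) h1
  have b2 := Nat.mul_le_mul_left (3 ^ a) h2
  rw [mul_add] at b1 b2
  refine ⟨3 ^ a * t / 4 - M, by omega, fun e => ?_⟩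
  have := congrFun e ⟨3 ^ a * t % 4, Nat.mod_lt _ (by norm_num)⟩
  simp only [x] at this
  rw [show 4 * (M + (3 ^ a * t / 4 - M) + 3 ^ a * u) + 3 ^ a * t % 4 = 3 ^ a * (t + 4 * u) by
      rw [mul_add (3 ^ a), mul_left_comm (3 ^ a)]; omega,
    show 4 * (M + (3 ^ a * t / 4 - M)) + 3 ^ a * t % 4 = 3 ^ a * t by omega,
    y_eq a (by omega), y_eq a (by omega), ZMod.natCast_eq_natCast_iff'] at this
  omega

open Classical in
theorem step {A : Type} {z : ℕ → A}
    (P : ∀ a u i, ¬ 3 ∣ u → ∃ k < 3 ^ a, z (i + k + 3 ^ a * u) ≠ z (i + k)) (a : ℕ) :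
    ∀ I n u, Split z I → ¬ 3 ∣ u → Nat.count (· ∈ Iᶜ) n = 3 ^ a * u →
      3 ^ a ∣ Nat.count (· ∈ I) n → n ∉ I := by
  induction a using Nat.strong_induction_on with
  | _ a ih =>
  intro I n u S hu hd ⟨w, hc⟩ hn
  have ex : ∃ r, n + r ∉ I := by
    obtain ⟨m, hm, h⟩ := S.2.1.exists_gt n
    exact ⟨m - n, by rwa [Nat.add_sub_cancel' h.le]⟩
  have s := Nat.find_spec ex
  have s' : ∀ m < Nat.find ex, n + m ∈ I := fun m h => not_not.1 (Nat.find_min ex h)
  generalize Nat.find ex = r at *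
  have run : ∀ k ≤ r, Nat.count (· ∈ I) (n + k) = Nat.count (· ∈ I) n + k ∧
      Nat.count (· ∈ Iᶜ) (n + k) = Nat.count (· ∈ Iᶜ) n := fun k hk => by
    induction k with
    | zero => simp
    | succ k ik =>
      have := s' k hk
      rw [← add_assoc, Nat.count_succ, Nat.count_succ, (ik (by omega)).1, (ik (by omega)).2,
        if_pos this, if_neg (by simpa using this)]
      exact ⟨rfl, rfl⟩
  have tot : ∀ n, Nat.count (· ∈ I) n + Nat.count (· ∈ Iᶜ) n = n := fun n => by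
    induction n with
    | zero => simp
    | succ n ik =>
      rw [Nat.count_succ, Nat.count_succ]
      by_cases e : n ∈ I
      · rw [if_pos e, if_neg (by simpa using e)]; omega
      · rw [if_neg e, if_pos (by simpa using e)]; omega
  obtain ⟨k, hk, ne⟩ := P a u (Nat.count (· ∈ I) n) hu
  have rk : r ≤ k := by
    by_contra c
    have c := not_le.1 c
    have := S.2.2.1 (Nat.count (· ∈ I) (n + k))
    rw [Nat.nth_count (p := (· ∈ I)) (s' k c), (run k c.le).1] at this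
    refine ne (Eq.trans (congrArg z ?_) this)
    have := tot n
    omega
  have r0 : r ≠ 0 := by rintro rfl; exact s hn
  obtain ⟨b, v, hv, e⟩ := Nat.exists_eq_pow_mul_and_not_dvd r0 3 (by norm_num)
  have ba : b < a := by
    have : 3 ^ b ≤ r := e ▸ Nat.le_mul_of_pos_right _ (Nat.pos_of_ne_zero (by rintro rfl; simp at hv))
    exact (Nat.pow_lt_pow_iff_right (by norm_num)).1 (by omega : 3 ^ b < 3 ^ a)
  obtain ⟨c, rfl⟩ := Nat.exists_eq_add_of_lt ba
  refine ih b ba Iᶜ (n + r) (3 * (3 ^ c * w) + v) ⟨S.2.1, by simpa using S.1, S.2.2.2,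
    by simpa using S.2.2.1⟩ (by omega) ?_ ?_ s
  · simp only [compl_compl]
    rw [(run r le_rfl).1, hc, e]
    ring
  · exact ⟨3 ^ c * 3 * u, Eq.trans (Eq.trans (by congr) (run r le_rfl).2) (by rw [hd]; ring)⟩

open Classical in
theorem start {A : Type} {z : ℕ → A}
    (P : ∀ a u i, ¬ 3 ∣ u → ∃ k < 3 ^ a, z (i + k + 3 ^ a * u) ≠ z (i + k)) (I : Set ℕ)
    (S : Split z I) : 0 ∈ I := by
  by_contra h
  have ex : ∃ r, r ∈ I := S.1.nonempty
  have s := Nat.find_spec ex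
  have s' : ∀ m < Nat.find ex, m ∉ I := fun m h => Nat.find_min ex h
  generalize Nat.find ex = r at *
  obtain ⟨b, v, hv, e⟩ := Nat.exists_eq_pow_mul_and_not_dvd (n := r) (by rintro rfl; exact h s) 3
    (by norm_num)
  refine step P b I r v S hv (e ▸ Nat.count_iff_forall.2 s') ?_ s
  rw [Nat.count_iff_forall_not.2 s']
  exact dvd_zero _

theorem result : ∃ (A : Type) (_ : Fintype A) (_ : TopologicalSpace A) (_ : DiscreteTopology A)
    (w : ℕ → A), ∀ z ∈ closure (Set.range fun n k => w (n + k)), ¬ SelfShuffling z := by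
  letI : TopologicalSpace (Fin 4 → ZMod 3) := ⊥
  haveI : DiscreteTopology (Fin 4 → ZMod 3) := ⟨rfl⟩
  refine ⟨Fin 4 → ZMod 3, inferInstance, inferInstance, inferInstance, x, fun z hz' ⟨I, S⟩ => ?_⟩
  have hz : ∀ L, ∃ n, ∀ k < L, z k = x (n + k) := fun L => by
    obtain ⟨_, h, n, rfl⟩ := mem_closure_iff.1 hz' (Set.pi (Set.Iio L) fun k => {z k})
      (isOpen_set_pi (Set.finite_Iio L) fun _ _ => isOpen_discrete _) fun _ _ => rfl
    exact ⟨n, fun k hk => (h k hk).symm⟩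
  have P : ∀ a u i, ¬ 3 ∣ u → ∃ k < 3 ^ a, z (i + k + 3 ^ a * u) ≠ z (i + k) := fun a u i hu => by
    obtain ⟨n, hn⟩ := hz (i + 3 ^ a + 3 ^ a * u)
    obtain ⟨k, hk, ne⟩ := key a u (n + i) hu
    refine ⟨k, hk, ?_⟩
    rw [hn _ (by omega), hn _ (by omega)]
    simpa only [add_assoc] using ne
  exact start P Iᶜ ⟨S.2.1, by simpa using S.1, S.2.2.2, by simpa using S.2.2.1⟩ (start P I S)

end Pool.Agent.Results.MP_f1a2b2_co.NoShuffle
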